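import Mathlib
import Pool.Agent.H66.IntC

set_option autoImplicit false

open Polynomial TensorProduct

namespace Pool.Agent.Results.MP_457b0e_al.IntegralClosure

universe u v w

variable (D : Type u) (K : Type v) (A : Type w) [CommRing D] [Field K] [Ring A] [Algebra D K]
  [Algebra D A]

/-- the copy of `A` inside `B = K ⊗ A`. -/
def copyA : Set (K ⊗[D] A) := Set.range fun a : A => (1 : K) ⊗ₜ[D] a

/-- `Int_K(A)`. -/
def intK : Set K[X] := {f | ∀ a ∈ copyA D K A, aeval a f ∈ copyA D K A}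

/-- `Int_K(A, A')`. -/
def intK' : Set K[X] := {f | ∀ a ∈ copyA D K A, IsIntegral D (aeval a f)}

/-- `Int_K(A, A')` is the integral closure of `Int_K(A)` in `K(X)`. -/
theorem result [IsDomain D] [IsIntegrallyClosed D] [IsFractionRing D K] [Module.Finite D A] :
    ∃ R : Subring K[X], (R : Set K[X]) = intK D K A ∧
      ∀ h : RatFunc K, IsIntegral R h ↔ ∃ f ∈ intK' D K A, algebraMap K[X] (RatFunc K) f = h := by
  let S : Subalgebra D (K ⊗[D] A) := (Algebra.TensorProduct.includeRight : A →ₐ[D] _).range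
  have hS : ∀ a, a ∈ copyA D K A ↔ a ∈ S := fun a => Iff.rfl
  have hint : ∀ a ∈ S, IsIntegral D a := by
    rintro _ ⟨a, rfl⟩
    exact (Algebra.IsIntegral.isIntegral (R := D) a).map
      (Algebra.TensorProduct.includeRight : A →ₐ[D] K ⊗[D] A)
  let R : Subring K[X] := ⨅ a : S, S.toSubring.comap (aeval (a : K ⊗[D] A) : K[X] →ₐ[K] _)
  have hR : ∀ f, f ∈ R ↔ ∀ a ∈ S, aeval a f ∈ S := fun f => by
    simp [R, Subring.mem_iInf]
  refine ⟨R, Set.ext hR, fun h => ⟨fun hh => ?_, ?_⟩⟩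
  · obtain ⟨f, rfl⟩ := IsIntegrallyClosed.isIntegral_iff.1 (hh.tower_top (A := K[X]))
    refine ⟨f, fun a ha => ?_, rfl⟩
    rw [isIntegral_algebraMap_iff (IsFractionRing.injective K[X] (RatFunc K))] at hh
    exact Pool.Agent.H66.IntC.integral_map' R ((aeval a : K[X] →ₐ[K] _).restrictScalars D) f hh
      fun r hr => hint _ ((hR r).1 hr a ha)
  · rintro ⟨f, hf, rfl⟩
    obtain ⟨φ, h1, h2, h3⟩ := Pool.Agent.H66.IntC.main S f hf
    refine IsIntegral.algebraMap ⟨φ.map (Int.castRingHom R) - C ⟨_, (hR _).2 h3⟩,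
      (h1.map _).sub_of_left ?_, ?_⟩
    · rw [h1.degree_map]
      exact degree_C_le.trans_lt h2
    · rw [eval₂_sub, eval₂_map, eval₂_C, RingHom.ext_int (RingHom.comp _ _) (Int.castRingHom _)]
      exact sub_self _

end Pool.Agent.Results.MP_457b0e_al.IntegralClosure
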